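import Pool.Agent.Helper14.BSC.Stmts

set_option autoImplicit false

/-!
# Module TAME2 of MP_8312c9_nt (birational section conjecture)
-/

namespace Pool.Agent.Helper14.BSC

section

variable {N : Type} [Field N]

theorem tame2_sq_iff (σ : N ≃+* N) (x : N) : IsSquare (σ x) ↔ IsSquare x := by
  constructor
  · intro h
    have := h.map σ.symm
    simpa using this
  · intro h
    exact h.map σ

theorem tame2_od (σ : N ≃+* N) {e : N} (he : σ e = e) (x : N) : Od e (σ x) ↔ Od e x := by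
  unfold Od
  rw [tame2_sq_iff]
  have : e * σ x = σ (e * x) := by rw [map_mul, he]
  rw [this, tame2_sq_iff]

theorem tame2_rigO_imp (σ : N ≃+* N) {e : N} (he : σ e = e) {x : N} (h : RigO e x) :
    RigO e (σ x) := by
  rcases h with ⟨h1, h2⟩ | ⟨h1, h2⟩
  · left
    refine ⟨(tame2_od σ he x).2 h1, ?_⟩
    have : 1 + σ x = σ (1 + x) := by rw [map_add, map_one]
    rw [this, tame2_sq_iff]
    exact h2
  · right
    refine ⟨fun h => h1 ((tame2_od σ he x).1 h), fun y hy hy1 => ?_⟩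
    obtain ⟨z, rfl⟩ := σ.surjective y
    have e1 : 1 + σ x * σ z = σ (1 + x * z) := by rw [map_add, map_one, map_mul]
    have e2 : 1 + σ z = σ (1 + z) := by rw [map_add, map_one]
    rw [e1, tame2_sq_iff]
    rw [e2, tame2_sq_iff] at hy1
    exact h2 z ((tame2_od σ he z).1 hy) hy1

end

section

variable {k Ω : Type} [Field k] [Field Ω] [Algebra k Ω]

theorem tame2_map {D : Sec k Ω} {S : Set (Acl k Ω)} {g : GG k Ω}
    (hg : ∀ h ∈ Stab S, g⁻¹ * h * g ∈ Stab S) {x : Ω} (hx : x ∈ NN D S) :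
    D.s g x ∈ NN D S := by
  intro h hh
  have h1 := hx _ (hg h hh)
  rw [map_mul, map_mul, AlgEquiv.mul_apply, AlgEquiv.mul_apply] at h1
  have h2 := congrArg (D.s g) h1
  rw [← AlgEquiv.mul_apply, ← map_mul, mul_inv_cancel, map_one] at h2
  exact h2

/-- the restriction of `D.s g` to `NN D S` -/
def tame2_res (D : Sec k Ω) (S : Set (Acl k Ω)) (g : GG k Ω)
    (hg : ∀ h ∈ Stab S, g⁻¹ * h * g ∈ Stab S) (hg' : ∀ h ∈ Stab S, g * h * g⁻¹ ∈ Stab S) :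
    NN D S ≃+* NN D S where
  toFun x := ⟨D.s g x, tame2_map hg x.2⟩
  invFun x := ⟨D.s g⁻¹ x, tame2_map (g := g⁻¹) (by simpa using hg') x.2⟩
  left_inv x := Subtype.ext (by
    change D.s g⁻¹ (D.s g x) = x
    rw [← AlgEquiv.mul_apply, ← map_mul, inv_mul_cancel, map_one]; rfl)
  right_inv x := Subtype.ext (by
    change D.s g (D.s g⁻¹ x) = x
    rw [← AlgEquiv.mul_apply, ← map_mul, mul_inv_cancel, map_one]; rfl)
  map_mul' x y := Subtype.ext (map_mul _ _ _)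
  map_add' x y := Subtype.ext (map_add _ _ _)

theorem tame2_res_coe (D : Sec k Ω) (S : Set (Acl k Ω)) (g : GG k Ω)
    (hg : ∀ h ∈ Stab S, g⁻¹ * h * g ∈ Stab S) (hg' : ∀ h ∈ Stab S, g * h * g⁻¹ ∈ Stab S)
    (x : NN D S) : ((tame2_res D S g hg hg' x : NN D S) : Ω) = D.s g x := rfl

theorem tame2_pow (D : Sec k Ω) (g : GG k Ω) (n : ℕ) (x : Ω) :
    D.s (g ^ n) x = ((D.s g) ^ n) x := by
  rw [map_pow]

theorem tame2_res_pow (D : Sec k Ω) (S : Set (Acl k Ω)) (g : GG k Ω)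
    (hg : ∀ h ∈ Stab S, g⁻¹ * h * g ∈ Stab S) (hg' : ∀ h ∈ Stab S, g * h * g⁻¹ ∈ Stab S)
    (n : ℕ) (x : NN D S) :
    ((((tame2_res D S g hg hg') ^ n) x : NN D S) : Ω) = D.s (g ^ n) x := by
  induction n with
  | zero => rw [pow_zero, pow_zero, map_one]; rfl
  | succ n ih =>
    rw [pow_succ', pow_succ', map_mul, AlgEquiv.mul_apply, RingAut.mul_apply, tame2_res_coe, ih]

theorem tame2_fix_pow (D : Sec k Ω) (g : GG k Ω) {x : Ω} (h : D.s g x = x) (n : ℕ) :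
    D.s (g ^ n) x = x := by
  induction n with
  | zero => rw [pow_zero, map_one]; rfl
  | succ n ih => rw [pow_succ', map_mul, AlgEquiv.mul_apply, ih, h]

variable {p : ℕ} [Fact p.Prime]

theorem tame2_ne (Lc : Loc k Ω p) {c₀ ϖ : Acl k Ω} (h1 : nm Lc c₀ = 1)
    (h : ϖ ^ p = Lc.π * c₀) : ϖ ≠ 0 := by
  rintro rfl
  have hp : p ≠ 0 := (Fact.out : p.Prime).ne_zero
  rw [zero_pow hp] at h
  rcases mul_eq_zero.1 h.symm with h | h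
  · have := Lc.posπ
    rw [h, map_zero, norm_zero] at this
    exact lt_irrefl _ this
  · rw [h] at h1
    unfold nm at h1
    rw [map_zero, norm_zero] at h1
    exact zero_ne_one h1

theorem tame2_rot (Lc : Loc k Ω p) {c₀ ϖ : Acl k Ω} (h0 : c₀ ∈ FF Lc.S₁) (h1 : nm Lc c₀ = 1)
    (h : ϖ ^ p = Lc.π * c₀) {g : GG k Ω} (hg : g ∈ Stab Lc.S₁) :
    ∃ i : ℕ, g ϖ = Lc.ζ ^ i * ϖ := by
  have hne := tame2_ne Lc h1 h
  have hpos : 0 < p := (Fact.out : p.Prime).pos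
  have : NeZero p := ⟨hpos.ne'⟩
  have e1 : (g ϖ / ϖ) ^ p = 1 := by
    rw [div_pow, ← map_pow, h, map_mul, Lc.memπ g hg, h0 g hg, ← h, div_self (pow_ne_zero _ hne)]
  obtain ⟨i, -, hi⟩ := Lc.prim.eq_pow_of_pow_eq_one e1
  refine ⟨i, ?_⟩
  rw [hi, div_mul_cancel₀ _ hne]

theorem tame2_conj (Lc : Loc k Ω p) {c₀ ϖ : Acl k Ω} (h0 : c₀ ∈ FF Lc.S₁) (h1 : nm Lc c₀ = 1)
    (h : ϖ ^ p = Lc.π * c₀) {g : GG k Ω} (hg : g ∈ Stab Lc.S₁) :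
    ∀ h ∈ Stab (Lc.S₁ ∪ {ϖ}), g⁻¹ * h * g ∈ Stab (Lc.S₁ ∪ {ϖ}) := by
  intro t ht
  have ht1 : t ∈ Stab Lc.S₁ := fun a ha => ht a (Or.inl ha)
  intro a ha
  rcases ha with ha | ha
  · exact (Stab Lc.S₁).mul_mem ((Stab Lc.S₁).mul_mem ((Stab Lc.S₁).inv_mem hg) ht1) hg a ha
  · rw [Set.mem_singleton_iff] at ha
    subst ha
    obtain ⟨i, hi⟩ := tame2_rot Lc h0 h1 h hg
    have e1 : t (g a) = g a := by
      rw [hi, map_mul, map_pow, Lc.memζ t ht1, ht a (Or.inr rfl)]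
    rw [AlgEquiv.mul_apply, AlgEquiv.mul_apply, e1, ← AlgEquiv.mul_apply, inv_mul_cancel]
    rfl

theorem tame2_stab_le (Lc : Loc k Ω p) (ϖ : Acl k Ω) :
    Stab (Lc.S₁ ∪ {ϖ}) ≤ Stab Lc.S₁ := fun _ ht a ha => ht a (Or.inl ha)

/-- an element of `NN D (S₁ ∪ {ϖ})` fixed by `τ` is in `NN D S₁` -/
theorem tame2_desc (D : Sec k Ω) (Lc : Loc k Ω p) {c₀ ϖ : Acl k Ω} (h0 : c₀ ∈ FF Lc.S₁)
    (h1 : nm Lc c₀ = 1) (h : ϖ ^ p = Lc.π * c₀) {τ : GG k Ω} (hτ : τ ∈ Stab Lc.S₁)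
    (hτϖ : τ ϖ = Lc.ζ * ϖ) {x : Ω} (hx : x ∈ NN D (Lc.S₁ ∪ {ϖ})) (hfix : D.s τ x = x) :
    x ∈ NN D Lc.S₁ := by
  intro g hg
  obtain ⟨i, hi⟩ := tame2_rot Lc h0 h1 h hg
  have hτi : ∀ j : ℕ, (τ ^ j) ϖ = Lc.ζ ^ j * ϖ := by
    intro j
    induction j with
    | zero => rw [pow_zero, pow_zero, one_mul]; rfl
    | succ j ih =>
      rw [pow_succ', AlgEquiv.mul_apply, ih, map_mul, map_pow, Lc.memζ τ hτ, hτϖ, pow_succ]
      ring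
  have hmem : (τ ^ i)⁻¹ * g ∈ Stab (Lc.S₁ ∪ {ϖ}) := by
    intro a ha
    rcases ha with ha | ha
    · exact (Stab Lc.S₁).mul_mem ((Stab Lc.S₁).inv_mem ((Stab Lc.S₁).pow_mem hτ i)) hg a ha
    · rw [Set.mem_singleton_iff] at ha
      subst ha
      rw [AlgEquiv.mul_apply, hi, ← hτi, ← AlgEquiv.mul_apply, inv_mul_cancel]
      rfl
  have h2 := hx _ hmem
  have h3 : g = (τ ^ i) * ((τ ^ i)⁻¹ * g) := by rw [mul_inv_cancel_left]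
  rw [h3, map_mul, AlgEquiv.mul_apply, h2]
  exact tame2_fix_pow D τ hfix i

end

theorem st_TAME2 (hRIG : ST_RIG) (hRAM : ST_RAM) (hASY : ST_ASY2) (hGD1 : ST_GD1)
    (hGD2 : ST_GD2) (hRN : ST_RIGN2) (hOF : ST_OF2) : ST_TAME2 := by
  intro k Ω _ _ _ _ _ D p _ hp2 Lc
  obtain ⟨e, he⟩ := hASY k Ω p hp2 Lc
  set e₁ : FF Lc.S₁ := ⟨e, he.1⟩ with he₁
  have hA1 : Asym2 Lc (e₁ : Acl k Ω) := he
  have hR1 : Rigid (inc D Lc.S₁ e₁) := hRN k Ω D p hp2 Lc Lc.S₁ Lc.π (hGD1 k Ω p Lc) e₁ hA1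
  obtain ⟨O₁, hO₁⟩ := hRIG (NN D Lc.S₁) _ hR1
  refine ⟨O₁, hOF k Ω D p hp2 Lc e₁ hA1 O₁ hO₁, ?_⟩
  intro c₀ ϖ h0 h1 h
  obtain ⟨hgood, τ, hτ, hτϖ⟩ := hGD2 k Ω p Lc c₀ ϖ h0 h1 h
  have hle : Stab (Lc.S₁ ∪ {ϖ}) ≤ Stab Lc.S₁ := tame2_stab_le Lc ϖ
  set e₂ : FF (Lc.S₁ ∪ {ϖ}) := ⟨e, FF_le hle he.1⟩ with he₂
  have hA2 : Asym2 Lc (e₂ : Acl k Ω) := he
  have hR2 : Rigid (inc D (Lc.S₁ ∪ {ϖ}) e₂) :=
    hRN k Ω D p hp2 Lc (Lc.S₁ ∪ {ϖ}) ϖ hgood e₂ hA2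
  obtain ⟨O₂, hO₂⟩ := hRIG (NN D (Lc.S₁ ∪ {ϖ})) _ hR2
  have hinv : ∀ g ∈ Stab Lc.S₁, ∀ t ∈ Stab (Lc.S₁ ∪ {ϖ}), g⁻¹ * t * g ∈ Stab (Lc.S₁ ∪ {ϖ}) :=
    fun g hg => tame2_conj Lc h0 h1 h hg
  have hinv' : ∀ g ∈ Stab Lc.S₁, ∀ t ∈ Stab (Lc.S₁ ∪ {ϖ}), g * t * g⁻¹ ∈ Stab (Lc.S₁ ∪ {ϖ}) := by
    intro g hg t ht
    have := hinv g⁻¹ ((Stab Lc.S₁).inv_mem hg) t ht
    rwa [inv_inv] at this
  have hfixe : ∀ (g : GG k Ω) (hg : g ∈ Stab Lc.S₁),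
      tame2_res D (Lc.S₁ ∪ {ϖ}) g (hinv g hg) (hinv' g hg) (inc D (Lc.S₁ ∪ {ϖ}) e₂)
        = inc D (Lc.S₁ ∪ {ϖ}) e₂ := by
    intro g hg
    apply Subtype.ext
    rw [tame2_res_coe, coe_inc, D.ext, he.1 g hg]
  refine ⟨O₂, ?_, ?_⟩
  · intro x hx
    set i : NN D Lc.S₁ →+* NN D (Lc.S₁ ∪ {ϖ}) :=
      (IntermediateField.inclusion (NN_le D hle)).toRingHom with hi
    have hic : ∀ y : NN D Lc.S₁, ((i y : NN D (Lc.S₁ ∪ {ϖ})) : Ω) = y := fun y => rfl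
    have hie : i (inc D Lc.S₁ e₁) = inc D (Lc.S₁ ∪ {ϖ}) e₂ := Subtype.ext rfl
    have hxi : (⟨x, hx⟩ : NN D (Lc.S₁ ∪ {ϖ})) = i x := Subtype.ext rfl
    set T := tame2_res D (Lc.S₁ ∪ {ϖ}) τ (hinv τ hτ) (hinv' τ hτ) with hT
    have key := hRAM (NN D Lc.S₁) (NN D (Lc.S₁ ∪ {ϖ})) i T p
      ((Fact.out : p.Prime).odd_of_ne_two hp2) ?_ ?_ (inc D Lc.S₁ e₁) hR1 (by rw [hie]; exact hR2) x
    · rw [hxi, hO₂, hO₁, ← hie]
      exact key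
    · intro y
      constructor
      · intro hy
        have hy' : D.s τ (y : Ω) = y := by
          have := congrArg (fun z : NN D (Lc.S₁ ∪ {ϖ}) => (z : Ω)) hy
          exact this
        exact ⟨⟨y, tame2_desc D Lc h0 h1 h hτ hτϖ y.2 hy'⟩, Subtype.ext rfl⟩
      · rintro ⟨z, rfl⟩
        apply Subtype.ext
        rw [hT, tame2_res_coe, hic]
        exact z.2 τ hτ
    · intro y
      apply Subtype.ext
      rw [hT, tame2_res_pow]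
      refine y.2 _ ?_
      intro a ha
      rcases ha with ha | ha
      · exact (Stab Lc.S₁).pow_mem hτ p a ha
      · rw [Set.mem_singleton_iff] at ha
        subst ha
        have hτi : ∀ j : ℕ, (τ ^ j) a = Lc.ζ ^ j * a := by
          intro j
          induction j with
          | zero => rw [pow_zero, pow_zero, one_mul]; rfl
          | succ j ih =>
            rw [pow_succ', AlgEquiv.mul_apply, ih, map_mul, map_pow, Lc.memζ τ hτ, hτϖ, pow_succ]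
            ring
        rw [hτi, Lc.prim.pow_eq_one, one_mul]
  · intro g hg x hx
    refine ⟨tame2_map (hinv g hg) x.2, ?_⟩
    have h2 : (⟨_, tame2_map (hinv g hg) x.2⟩ : NN D (Lc.S₁ ∪ {ϖ}))
        = tame2_res D (Lc.S₁ ∪ {ϖ}) g (hinv g hg) (hinv' g hg) x := rfl
    rw [h2, hO₂]
    exact tame2_rigO_imp _ (hfixe g hg) ((hO₂ x).1 hx)

end Pool.Agent.Helper14.BSC
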